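import Pool.Agent.G9.Stmts

set_option autoImplicit false

namespace Pool.Agent.G9.H34

open Finset Pool.Agent.G9

section
variable {V : Type} {G : SimpleGraph V}

/-- uniqueness of non-backtracking paths with at most 5 steps -/
lemma uniq (hG : NoEven G) : ∀ l : ℕ, l ≤ 5 → ∀ u v : ℕ → V,
    (∀ i, i < l → G.Adj (u i) (u (i + 1))) → (∀ i, i + 2 ≤ l → u i ≠ u (i + 2)) →
    (∀ i, i < l → G.Adj (v i) (v (i + 1))) → (∀ i, i + 2 ≤ l → v i ≠ v (i + 2)) →
    u 0 = v 0 → u l = v l → ∀ i, i ≤ l → u i = v i := by
  intro l
  induction l with
  | zero =>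
    intro _ u v _ _ _ _ h0 _ i hi
    rw [Nat.le_zero.1 hi]
    exact h0
  | succ l ih =>
    intro hl u v ua ub va vb h0 h1 i hi
    rcases Nat.eq_zero_or_pos l with hz | hpos
    · subst hz
      rcases Nat.eq_zero_or_pos i with h | h
      · rw [h]
        exact h0
      · have : i = 1 := by omega
        rw [this]
        exact h1
    by_cases e1 : u 1 = v 1
    · rcases Nat.eq_zero_or_pos i with h | h
      · rw [h]
        exact h0
      · have := ih (by omega) (fun j => u (j + 1)) (fun j => v (j + 1))
          (fun j hj => ua (j + 1) (by omega)) (fun j hj => ub (j + 1) (by omega))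
          (fun j hj => va (j + 1) (by omega)) (fun j hj => vb (j + 1) (by omega))
          e1 h1 (i - 1) (by omega)
        rw [Nat.sub_add_cancel h] at this
        exact this
    by_cases e2 : u l = v l
    · rcases Nat.lt_or_ge i (l + 1) with h | h
      · exact ih (by omega) u v (fun j hj => ua j (by omega)) (fun j hj => ub j (by omega))
          (fun j hj => va j (by omega)) (fun j hj => vb j (by omega)) h0 e2 i (by omega)
      · have : i = l + 1 := by omega
        rw [this]
        exact h1
    exfalso
    set f : ℕ → V := fun j => if j ≤ l + 1 then u j else v (2 * (l + 1) - j) with hf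
    have fu : ∀ j, j ≤ l + 1 → f j = u j := fun j hj => by simp only [hf]; rw [if_pos hj]
    have fv : ∀ j, l + 1 ≤ j → f j = v (2 * (l + 1) - j) := by
      intro j hj
      simp only [hf]
      split_ifs with h
      · have : j = l + 1 := by omega
        rw [this, show 2 * (l + 1) - (l + 1) = l + 1 by omega]
        exact h1
      · rfl
    have f0 : f 0 = v 0 := by rw [fu 0 (by omega), h0]
    have p : 0 < 2 * (l + 1) := by omega
    refine hG (l + 1) (by omega) hl (fun i => f (i % (2 * (l + 1)))) ?_ ?_ ?_
    · intro i
      simp only [Nat.add_mod_right]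
    · intro i
      have hr : i % (2 * (l + 1)) < 2 * (l + 1) := Nat.mod_lt _ p
      have hs : (i + 1) % (2 * (l + 1)) =
          if i % (2 * (l + 1)) + 1 = 2 * (l + 1) then 0 else i % (2 * (l + 1)) + 1 := by
        rw [Nat.add_mod]
        have h1' : 1 % (2 * (l + 1)) = 1 := Nat.mod_eq_of_lt (by omega)
        rw [h1']
        split_ifs with h
        · rw [h, Nat.mod_self]
        · exact Nat.mod_eq_of_lt (by omega)
      rw [hs]
      generalize i % (2 * (l + 1)) = r at hr
      split_ifs with h
      · have hr1 : r = 2 * (l + 1) - 1 := by omega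
        rw [f0, fv r (by omega), show 2 * (l + 1) - r = 0 + 1 by omega]
        exact (va 0 (by omega)).symm
      · rcases Nat.lt_or_ge r (l + 1) with h2 | h2
        · rw [fu r (by omega), fu (r + 1) (by omega)]
          exact ua r h2
        · rw [fv r h2, fv (r + 1) (by omega)]
          have := va (2 * (l + 1) - (r + 1)) (by omega)
          rw [show 2 * (l + 1) - (r + 1) + 1 = 2 * (l + 1) - r by omega] at this
          exact this.symm
    · intro i
      have hr : i % (2 * (l + 1)) < 2 * (l + 1) := Nat.mod_lt _ p
      have hs : (i + 2) % (2 * (l + 1)) =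
          if 2 * (l + 1) ≤ i % (2 * (l + 1)) + 2 then i % (2 * (l + 1)) + 2 - 2 * (l + 1)
          else i % (2 * (l + 1)) + 2 := by
        rw [Nat.add_mod]
        have h1' : 2 % (2 * (l + 1)) = 2 := Nat.mod_eq_of_lt (by omega)
        rw [h1']
        split_ifs with h
        · rw [Nat.mod_eq_sub_mod h]
          exact Nat.mod_eq_of_lt (by omega)
        · exact Nat.mod_eq_of_lt (by omega)
      rw [hs]
      generalize i % (2 * (l + 1)) = r at hr
      split_ifs with h
      · rcases Nat.lt_or_ge r (2 * (l + 1) - 1) with h3 | h3
        · rw [show r + 2 - 2 * (l + 1) = 0 by omega, f0, fv r (by omega),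
            show 2 * (l + 1) - r = 0 + 2 by omega]
          exact (vb 0 (by omega)).symm
        · rw [show r + 2 - 2 * (l + 1) = 1 by omega, fu 1 (by omega), fv r (by omega),
            show 2 * (l + 1) - r = 1 by omega]
          exact fun h => e1 h.symm
      · rcases Nat.lt_or_ge r l with h3 | h3
        · rw [fu r (by omega), fu (r + 2) (by omega)]
          exact ub r (by omega)
        · rcases Nat.lt_or_ge l r with h4 | h4
          · rw [fv r (by omega), fv (r + 2) (by omega)]
            have := vb (2 * (l + 1) - (r + 2)) (by omega)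
            rw [show 2 * (l + 1) - (r + 2) + 2 = 2 * (l + 1) - r by omega] at this
            exact this.symm
          · have : r = l := by omega
            rw [this, fu l (by omega), fv (l + 2) (by omega),
              show 2 * (l + 1) - (l + 2) = l by omega]
            exact e2

end

section
variable {V : Type} [Fintype V] [DecidableEq V] (G : SimpleGraph V) [DecidableRel G.Adj]

/-- walks with `s` steps: last vertex and the earlier ones -/
def wk : ℕ → Finset (V × List V)
  | 0 => Finset.univ.image fun a => (a, [])
  | s + 1 => (wk s).biUnion fun p => (G.neighborFinset p.1).image fun b => (b, p.1 :: p.2)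

lemma wk_card (D : ℕ) (hD : ∀ v, G.degree v ≤ D) (s : ℕ) :
    (wk G s).card ≤ Fintype.card V * D ^ s := by
  induction s with
  | zero =>
    rw [pow_zero, mul_one]
    exact Finset.card_image_le
  | succ s ih =>
    calc (wk G (s + 1)).card ≤ (wk G s).card * D := by
          apply Finset.card_biUnion_le_card_mul
          intro p _
          apply le_trans Finset.card_image_le
          rw [SimpleGraph.card_neighborFinset_eq_degree]
          exact hD _
      _ ≤ Fintype.card V * D ^ s * D := Nat.mul_le_mul_right _ ih
      _ = Fintype.card V * D ^ (s + 1) := by rw [pow_succ, mul_assoc]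

/-- the first `s` steps of a walk -/
def st (c : ℕ → V) : ℕ → V × List V
  | 0 => (c 0, [])
  | s + 1 => (c (s + 1), (st c s).1 :: (st c s).2)

omit [Fintype V] [DecidableEq V] in
lemma st_fst (c : ℕ → V) (s : ℕ) : (st c s).1 = c s := by
  cases s <;> rfl

lemma st_mem (c : ℕ → V) (hc : ∀ i, G.Adj (c i) (c (i + 1))) (s : ℕ) : st c s ∈ wk G s := by
  induction s with
  | zero => exact Finset.mem_image.2 ⟨c 0, Finset.mem_univ _, rfl⟩
  | succ s ih =>
    refine Finset.mem_biUnion.2 ⟨st c s, ih, Finset.mem_image.2 ⟨c (s + 1), ?_, rfl⟩⟩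
    rw [SimpleGraph.mem_neighborFinset, st_fst]
    exact hc s

omit [Fintype V] [DecidableEq V] in
lemma st_inj (c c' : ℕ → V) (s : ℕ) (h : st c s = st c' s) : ∀ i, i ≤ s → c i = c' i := by
  induction s with
  | zero =>
    intro i hi
    rw [Nat.le_zero.1 hi]
    exact congrArg Prod.fst h
  | succ s ih =>
    intro i hi
    have h1 : c (s + 1) = c' (s + 1) := congrArg Prod.fst h
    have h2 : (st c s).1 :: (st c s).2 = (st c' s).1 :: (st c' s).2 := congrArg Prod.snd h
    rw [List.cons.injEq] at h2
    rcases Nat.lt_or_ge i (s + 1) with h3 | h3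
    · exact ih (Prod.ext h2.1 h2.2) i (by omega)
    · have : i = s + 1 := by omega
      rw [this]
      exact h1

lemma cnt_aux (D : ℕ) (hG : NoEven G) (hD : ∀ v, G.degree v ≤ D) (s m : ℕ) [NeZero m]
    (hm : m = s + 5) (h2 : ∀ i : ZMod m, i ≠ i + 2) :
    (CycT m G).ncard ≤ Fintype.card V * D ^ s := by
  refine le_trans ?_ (wk_card G D hD s)
  rw [← Set.ncard_coe_finset]
  refine Set.ncard_le_ncard_of_injOn (fun c => st (fun j : ℕ => c (j : ZMod m)) s) ?_ ?_
    (Finset.finite_toSet _)
  · intro c hc
    have := st_mem G (fun j : ℕ => c (j : ZMod m)) (fun i => by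
      have := hc.2 (i : ZMod m)
      simp only [Nat.cast_add, Nat.cast_one]
      exact this) s
    exact this
  · intro c hc c' hc' h
    have hst := st_inj _ _ s h
    have hu := uniq hG 5 le_rfl (fun j => c ((s + j : ℕ) : ZMod m))
      (fun j => c' ((s + j : ℕ) : ZMod m))
      (fun i _ => by
        have := hc.2 ((s + i : ℕ) : ZMod m)
        rw [← add_assoc, Nat.cast_add (s + i) 1, Nat.cast_one]
        exact this)
      (fun i _ => by
        intro h3
        have h4 := hc.1 h3
        rw [← add_assoc, Nat.cast_add (s + i) 2, Nat.cast_ofNat] at h4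
        exact h2 _ h4)
      (fun i _ => by
        have := hc'.2 ((s + i : ℕ) : ZMod m)
        rw [← add_assoc, Nat.cast_add (s + i) 1, Nat.cast_one]
        exact this)
      (fun i _ => by
        intro h3
        have h4 := hc'.1 h3
        rw [← add_assoc, Nat.cast_add (s + i) 2, Nat.cast_ofNat] at h4
        exact h2 _ h4)
      (hst s le_rfl)
      (by
        have e : ((s + 5 : ℕ) : ZMod m) = ((0 : ℕ) : ZMod m) := by
          rw [← hm, ZMod.natCast_self, Nat.cast_zero]
        simp only [e]
        exact hst 0 (Nat.zero_le _))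
    funext x
    have hx : ((x.val : ℕ) : ZMod m) = x := ZMod.natCast_zmod_val x
    have hlt : x.val < s + 5 := by rw [← hm]; exact ZMod.val_lt x
    rcases Nat.lt_or_ge x.val s with h3 | h3
    · have := hst x.val h3.le
      simp only [hx] at this
      exact this
    · have := hu (x.val - s) (by omega)
      simp only [show s + (x.val - s) = x.val by omega, hx] at this
      exact this

end

theorem cnt : CntStmt := by
  intro V _ _ G _ D hG hD
  exact ⟨cnt_aux G D hG hD 2 7 rfl (by decide), cnt_aux G D hG hD 4 9 rfl (by decide)⟩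

end Pool.Agent.G9.H34
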